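import Mathlib
import Pool.Agent.V11125.Acc

set_option autoImplicit false

namespace Pool.Agent.Results.MP_626dc7_co.LinearGrowth

open Finset Pool.Agent.V11125.Acc

/-- The 2-degree of `F`: the maximum, over 2-element sets `D`, of the number of members of `F`
containing `D`. -/
def twoDegree {n : ℕ} (F : Finset (Finset (Fin n))) : ℕ :=
  ((univ : Finset (Fin n)).powersetCard 2).sup (setDeg F)

/-- `m_2((2,2),n)`: the minimum 2-degree of a family of 4-element subsets of an `n`-set with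
respect to which `K_n` has no `(2,2)`-acceptable Hamilton cycle. -/
noncomputable def m2 (n : ℕ) : ℕ :=
  sInf {k : ℕ | ∃ F : Finset (Finset (Fin n)), Blocking F ∧ twoDegree F = k}

/-- **Linear growth.** There is `c > 0` such that `m_2((2,2),n) ≥ c n` for all `n ≥ 4`. -/
theorem result : ∃ c : ℝ, 0 < c ∧ ∀ n : ℕ, 4 ≤ n → c * (n : ℝ) ≤ (m2 n : ℝ) := by
  classical
  obtain ⟨μ, hμ, hmain⟩ := exists_mu
  refine ⟨μ, hμ, ?_⟩
  intro n hn
  have hne : {k : ℕ | ∃ F : Finset (Finset (Fin n)), Blocking F ∧ twoDegree F = k}.Nonempty := by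
    refine ⟨_, (univ : Finset (Fin n)).powersetCard 4, ⟨?_, ?_⟩, rfl⟩
    · intro X hX
      exact (mem_powersetCard.1 hX).2
    · intro σ hσ
      obtain ⟨i, j, h1, h2, -, -⟩ := exists_two_edges hn σ ⟨0, by omega⟩ ⟨1, by omega⟩ (by simp)
      exact hσ i j h1 (mem_powersetCard.2 ⟨subset_univ _, h2⟩)
  obtain ⟨F, ⟨hF4, hFb⟩, hFd⟩ := Nat.sInf_mem hne
  have hm2 : (m2 n : ℝ) = (twoDegree F : ℝ) := by
    rw [hFd]
    rfl
  rw [hm2]
  by_contra hlt
  push Not at hlt
  obtain ⟨σ, hσ⟩ := hmain n hn F hF4 (by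
    intro v
    have : (univ : Finset (Fin n)).filter
        (fun w => w ≠ v ∧ μ * (n : ℝ) < (setDeg F {v, w} : ℝ)) = ∅ := by
      rw [filter_eq_empty_iff]
      rintro w - ⟨hw, h⟩
      have h1 : setDeg F {v, w} ≤ twoDegree F :=
        le_sup (f := setDeg F) (mem_powersetCard.2 ⟨subset_univ _, card_pair hw.symm⟩)
      have h2 : (setDeg F {v, w} : ℝ) ≤ (twoDegree F : ℝ) := by exact_mod_cast h1
      linarith
    rw [this]
    simp)
  exact hFb σ hσ

end Pool.Agent.Results.MP_626dc7_co.LinearGrowth
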